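import Mathlib

set_option autoImplicit false

/-!
# The seven-dimensional colour algebra over a field `K`

`Col K` has the basis `1, e₁, e₂, e₃, f₁, f₂, f₃` over `K` and the products
`eᵢ fⱼ = fⱼ eᵢ = δᵢⱼ`, `eᵢ eⱼ = ± fₖ`, `fᵢ fⱼ = ∓ 2 eₖ` (vector product).
-/

namespace Pool.Agent.J4.H8.Color

/-- The colour algebra: coordinates `0` (unit), `1, 2, 3` (the `eᵢ`), `4, 5, 6` (the `fᵢ`). -/
def Col (K : Type) : Type := Fin 7 → K

section
variable {K : Type} [Field K]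

instance : AddCommGroup (Col K) := inferInstanceAs (AddCommGroup (Fin 7 → K))

instance (F : Type) [Field F] [Algebra F K] : Module F (Col K) :=
  inferInstanceAs (Module F (Fin 7 → K))

/-- the product -/
def cmul (x y : Col K) : Col K :=
  ![x 0 * y 0 + (x 1 * y 4 + x 2 * y 5 + x 3 * y 6) + (x 4 * y 1 + x 5 * y 2 + x 6 * y 3),
    x 0 * y 1 + x 1 * y 0 - 2 * (x 5 * y 6 - x 6 * y 5),
    x 0 * y 2 + x 2 * y 0 - 2 * (x 6 * y 4 - x 4 * y 6),
    x 0 * y 3 + x 3 * y 0 - 2 * (x 4 * y 5 - x 5 * y 4),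
    x 0 * y 4 + x 4 * y 0 + (x 2 * y 3 - x 3 * y 2),
    x 0 * y 5 + x 5 * y 0 + (x 3 * y 1 - x 1 * y 3),
    x 0 * y 6 + x 6 * y 0 + (x 1 * y 2 - x 2 * y 1)]

theorem ext7 {x y : Col K} (h0 : x 0 = y 0) (h1 : x 1 = y 1) (h2 : x 2 = y 2) (h3 : x 3 = y 3)
    (h4 : x 4 = y 4) (h5 : x 5 = y 5) (h6 : x 6 = y 6) : x = y := by
  funext i
  fin_cases i <;> assumption

instance : Mul (Col K) := ⟨cmul⟩

/-- the element with the given coordinates -/
def mk (a0 a1 a2 a3 a4 a5 a6 : K) : Col K := ![a0, a1, a2, a3, a4, a5, a6]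

instance : One (Col K) := ⟨mk 1 0 0 0 0 0 0⟩

@[simp] theorem mk0 (a0 a1 a2 a3 a4 a5 a6 : K) : mk a0 a1 a2 a3 a4 a5 a6 0 = a0 := rfl
@[simp] theorem mk1 (a0 a1 a2 a3 a4 a5 a6 : K) : mk a0 a1 a2 a3 a4 a5 a6 1 = a1 := rfl
@[simp] theorem mk2 (a0 a1 a2 a3 a4 a5 a6 : K) : mk a0 a1 a2 a3 a4 a5 a6 2 = a2 := rfl
@[simp] theorem mk3 (a0 a1 a2 a3 a4 a5 a6 : K) : mk a0 a1 a2 a3 a4 a5 a6 3 = a3 := rfl
@[simp] theorem mk4 (a0 a1 a2 a3 a4 a5 a6 : K) : mk a0 a1 a2 a3 a4 a5 a6 4 = a4 := rfl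
@[simp] theorem mk5 (a0 a1 a2 a3 a4 a5 a6 : K) : mk a0 a1 a2 a3 a4 a5 a6 5 = a5 := rfl
@[simp] theorem mk6 (a0 a1 a2 a3 a4 a5 a6 : K) : mk a0 a1 a2 a3 a4 a5 a6 6 = a6 := rfl

@[simp] theorem mul0 (x y : Col K) : (x * y) 0 =
    x 0 * y 0 + (x 1 * y 4 + x 2 * y 5 + x 3 * y 6) + (x 4 * y 1 + x 5 * y 2 + x 6 * y 3) := rfl
@[simp] theorem mul1 (x y : Col K) : (x * y) 1 =
    x 0 * y 1 + x 1 * y 0 - 2 * (x 5 * y 6 - x 6 * y 5) := rfl
@[simp] theorem mul2 (x y : Col K) : (x * y) 2 =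
    x 0 * y 2 + x 2 * y 0 - 2 * (x 6 * y 4 - x 4 * y 6) := rfl
@[simp] theorem mul3 (x y : Col K) : (x * y) 3 =
    x 0 * y 3 + x 3 * y 0 - 2 * (x 4 * y 5 - x 5 * y 4) := rfl
@[simp] theorem mul4 (x y : Col K) : (x * y) 4 =
    x 0 * y 4 + x 4 * y 0 + (x 2 * y 3 - x 3 * y 2) := rfl
@[simp] theorem mul5 (x y : Col K) : (x * y) 5 =
    x 0 * y 5 + x 5 * y 0 + (x 3 * y 1 - x 1 * y 3) := rfl
@[simp] theorem mul6 (x y : Col K) : (x * y) 6 =
    x 0 * y 6 + x 6 * y 0 + (x 1 * y 2 - x 2 * y 1) := rfl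

@[simp] theorem one0 : (1 : Col K) 0 = 1 := rfl
@[simp] theorem one1 : (1 : Col K) 1 = 0 := rfl
@[simp] theorem one2 : (1 : Col K) 2 = 0 := rfl
@[simp] theorem one3 : (1 : Col K) 3 = 0 := rfl
@[simp] theorem one4 : (1 : Col K) 4 = 0 := rfl
@[simp] theorem one5 : (1 : Col K) 5 = 0 := rfl
@[simp] theorem one6 : (1 : Col K) 6 = 0 := rfl

@[simp] theorem add_i (x y : Col K) (i : Fin 7) : (x + y) i = x i + y i := rfl
@[simp] theorem sub_i (x y : Col K) (i : Fin 7) : (x - y) i = x i - y i := rfl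
@[simp] theorem neg_i (x : Col K) (i : Fin 7) : (-x) i = - x i := rfl
@[simp] theorem zero_i (i : Fin 7) : (0 : Col K) i = 0 := rfl
@[simp] theorem smul_i (F : Type) [Field F] [Algebra F K] (c : F) (x : Col K) (i : Fin 7) :
    (c • x) i = c • x i := rfl

instance : NonAssocRing (Col K) :=
  { (inferInstance : AddCommGroup (Col K)) with
    mul := (· * ·)
    one := 1
    left_distrib := fun x y z => by apply ext7 <;> simp <;> ring
    right_distrib := fun x y z => by apply ext7 <;> simp <;> ring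
    zero_mul := fun x => by apply ext7 <;> simp
    mul_zero := fun x => by apply ext7 <;> simp
    one_mul := fun x => by apply ext7 <;> simp
    mul_one := fun x => by apply ext7 <;> simp }

instance (F : Type) [Field F] [Algebra F K] : IsScalarTower F (Col K) (Col K) :=
  ⟨fun c x y => by
    simp only [smul_eq_mul]
    apply ext7 <;> simp [Algebra.smul_def] <;> ring⟩

instance (F : Type) [Field F] [Algebra F K] : SMulCommClass F (Col K) (Col K) :=
  ⟨fun c x y => by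
    simp only [smul_eq_mul]
    apply ext7 <;> simp [Algebra.smul_def] <;> ring⟩

theorem flexible (x y : Col K) : (x * y) * x = x * (y * x) := by
  apply ext7 <;> simp <;> ring

theorem jordan (x y : Col K) : ((x * x) * y) * x = (x * x) * (y * x) := by
  apply ext7 <;> simp <;> ring

theorem comm_identity (x y : Col K) :
    ((x * y - y * x) * y) * y = (x * y - y * x) * (y * y) := by
  apply ext7 <;> simp <;> ring

end

end Pool.Agent.J4.H8.Color
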