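import Mathlib
import Pool.Agent.J4.H8.Color

set_option autoImplicit false

namespace Pool.Agent.J4.H8.Color

section
variable {K : Type} [Field K]

/-- the element of the unit `c • 1` -/
theorem sc_mul (c : K) (x : Col K) : mk c 0 0 0 0 0 0 * x =
    mk (c * x 0) (c * x 1) (c * x 2) (c * x 3) (c * x 4) (c * x 5) (c * x 6) := by
  apply ext7 <;> simp

/-- an additive subgroup closed under products with elements of `Col K` which contains a nonzero
element contains `1` -/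
theorem one_mem_of_ne (h2 : (2 : K) ≠ 0) (I : AddSubgroup (Col K))
    (hI : ∀ x ∈ I, ∀ y, x * y ∈ I ∧ y * x ∈ I) (x : Col K) (hx : x ∈ I) (hx0 : x ≠ 0) :
    (1 : Col K) ∈ I := by
  -- the elements `α y + c` with `y` isotropic
  have key : ∀ y : Col K, y 0 = 0 → y * y = 0 →
      x 1 * y 4 + x 2 * y 5 + x 3 * y 6 + (x 4 * y 1 + x 5 * y 2 + x 6 * y 3) ≠ 0 →
      (1 : Col K) ∈ I := by
    intro y hy0 hyy hc
    set c := x 1 * y 4 + x 2 * y 5 + x 3 * y 6 + (x 4 * y 1 + x 5 * y 2 + x 6 * y 3) with hcdef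
    have h1 : x * y + y * x ∈ I := I.add_mem (hI x hx y).1 (hI x hx y).2
    have h3 := (hI _ h1 (mk (1 / 2) 0 0 0 0 0 0)).2
    have e1 : mk (1 / 2) 0 0 0 0 0 0 * (x * y + y * x) =
        mk c (x 0 * y 1) (x 0 * y 2) (x 0 * y 3) (x 0 * y 4) (x 0 * y 5) (x 0 * y 6) := by
      rw [sc_mul]
      apply ext7 <;> simp [hy0, hcdef] <;> field_simp <;> ring
    rw [e1] at h3
    have h4 := (hI _ h3 (mk c (-(x 0 * y 1)) (-(x 0 * y 2)) (-(x 0 * y 3)) (-(x 0 * y 4))
      (-(x 0 * y 5)) (-(x 0 * y 6)))).1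
    have h5 := (hI _ h4 (mk (1 / (c * c)) 0 0 0 0 0 0)).2
    have hn : y 1 * y 4 + y 2 * y 5 + y 3 * y 6 = 0 := by
      have := congrFun hyy 0
      rw [mul0, hy0] at this
      have h6 : 2 * (y 1 * y 4 + y 2 * y 5 + y 3 * y 6) = 0 := by
        rw [zero_i] at this
        linear_combination this
      exact (mul_eq_zero.1 h6).resolve_left h2
    have e2 : mk (1 / (c * c)) 0 0 0 0 0 0 *
        (mk c (x 0 * y 1) (x 0 * y 2) (x 0 * y 3) (x 0 * y 4) (x 0 * y 5) (x 0 * y 6) *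
        mk c (-(x 0 * y 1)) (-(x 0 * y 2)) (-(x 0 * y 3)) (-(x 0 * y 4))
          (-(x 0 * y 5)) (-(x 0 * y 6))) = 1 := by
      rw [sc_mul]
      have hcc : c * c ≠ 0 := mul_ne_zero hc hc
      apply ext7
      · simp only [mk0, mul0, mk1, mk2, mk3, mk4, mk5, mk6, one0]
        field_simp
        linear_combination (-2 * x 0 ^ 2) * hn
      all_goals
        simp only [mk0, mul1, mul2, mul3, mul4, mul5, mul6, mk1, mk2, mk3, mk4, mk5, mk6, one1,
          one2, one3, one4, one5, one6]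
        ring
    rwa [e2] at h5
  have iso : ∀ a1 a2 a3 : K, (mk 0 a1 a2 a3 0 0 0 : Col K) * mk 0 a1 a2 a3 0 0 0 = 0 := by
    intro a1 a2 a3
    apply ext7 <;> simp <;> ring_nf <;> simp
  have iso' : ∀ a1 a2 a3 : K, (mk 0 0 0 0 a1 a2 a3 : Col K) * mk 0 0 0 0 a1 a2 a3 = 0 := by
    intro a1 a2 a3
    apply ext7 <;> simp <;> ring_nf <;> simp
  by_cases h1 : x 1 = 0
  swap
  · exact key (mk 0 0 0 0 1 0 0) rfl (iso' _ _ _) (by simpa using h1)
  by_cases h3 : x 2 = 0
  swap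
  · exact key (mk 0 0 0 0 0 1 0) rfl (iso' _ _ _) (by simpa using h3)
  by_cases h4 : x 3 = 0
  swap
  · exact key (mk 0 0 0 0 0 0 1) rfl (iso' _ _ _) (by simpa using h4)
  by_cases h5 : x 4 = 0
  swap
  · exact key (mk 0 1 0 0 0 0 0) rfl (iso _ _ _) (by simpa using h5)
  by_cases h6 : x 5 = 0
  swap
  · exact key (mk 0 0 1 0 0 0 0) rfl (iso _ _ _) (by simpa using h6)
  by_cases h7 : x 6 = 0
  swap
  · exact key (mk 0 0 0 1 0 0 0) rfl (iso _ _ _) (by simpa using h7)
  have h0 : x 0 ≠ 0 := by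
    intro h0
    exact hx0 (ext7 h0 h1 h3 h4 h5 h6 h7)
  have h8 := (hI x hx (mk (1 / x 0) 0 0 0 0 0 0)).2
  have e3 : mk (1 / x 0) 0 0 0 0 0 0 * x = 1 := by
    rw [sc_mul]
    apply ext7 <;> simp [h0, h1, h3, h4, h5, h6, h7]
  rwa [e3] at h8

end

/-- the field extension `F(t) / F` is infinite -/
theorem not_finite_ratFunc (F : Type) [Field F] : ¬ Module.Finite F (RatFunc F) := by
  intro h
  have h1 : Algebra.IsAlgebraic F (RatFunc F) := Algebra.IsAlgebraic.of_finite F (RatFunc F)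
  have h2 := h1.isAlgebraic (RatFunc.X : RatFunc F)
  exact RatFunc.transcendental_X h2

theorem not_finite (F K : Type) [Field F] [Field K] [Algebra F K] (h : ¬ Module.Finite F K) :
    ¬ Module.Finite F (Col K) := by
  intro h1
  apply h
  have h2 : Module.Finite F (Fin 7 → K) := h1
  exact Module.Finite.of_surjective (LinearMap.proj (R := F) (φ := fun _ : Fin 7 => K) 0)
    (LinearMap.proj_surjective 0)

end Pool.Agent.J4.H8.Color
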